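import Pool.Agent.D0H67.TS.DStm

/-! Project TS, module BASE1: the ideal of all the entries of the generic matrix. -/

set_option autoImplicit false
set_option linter.unusedSectionVars false
set_option linter.unusedVariables false

namespace Pool.Agent.D0H17.TS

open MvPolynomial Pool.Agent.W428.MOT Pool.Agent.TH192.MT Pool.Agent.TH192.DT
  Pool.Agent.D0H67.SUB Pool.Agent.D0H67.PM Pool.Agent.D0H67.CX Pool.Agent.D0H67.CX.Qh
open Pool.Agent.D0H67.TS

/-- the minors of size `1` -/
theorem minG_one (m n : Type) {t : ℕ} (ht : t = 1) (q : (Fin t → m) × (Fin t → n)) :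
    ∃ q' : m × n, minG m n t q = X q' := by
  subst ht
  refine ⟨(q.1 0, q.2 0), ?_⟩
  unfold minG
  rw [Matrix.det_fin_one, Matrix.of_apply]

theorem minG_one' (m n : Type) {t : ℕ} (ht : t = 1) (q' : m × n) :
    minG m n t (fun _ => q'.1, fun _ => q'.2) = X q' := by
  subst ht
  unfold minG
  rw [Matrix.det_fin_one, Matrix.of_apply]

theorem t_BASE1 : S_BASE1 := by
  intro m n _ _ _ _
  classical
  set c := Fintype.card (m × n) with hc
  have hc0 : 0 < c := Fintype.card_pos
  have e : Fin c ≃ m × n := (Fintype.equivFin (m × n)).symm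
  have hfold := GermS.fold (Smooth.cU c) (Smooth.PU 1) (Smooth.hPU 1) (fun s => by
    rw [Smooth.zeros_cU]
    intro hbt
    have h3 : (fun _ => 1 : Fin c → ℂ) ∈ (⊥ : Submodule ℂ (Fin c → ℂ)) := by
      rw [hbt]; trivial
    rw [Submodule.mem_bot] at h3
    exact one_ne_zero (congrFun h3 ⟨0, hc0⟩)) (Smooth.greedy_U 1)
    (fun A _ _ => Smooth.exch_U 1 A)
  set f : Fin c → MvPolynomial (m × n) ℂ := fun i => X (e i) with hf
  have hsp := Smooth.span_eq c 1 f
  refine ⟨_, GermS.pull (minG m n 1) _ _ f 1 hfold ⟨fun i => ?_, ?_, ?_⟩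
    ⟨fun j => ?_, fun l => ?_⟩⟩
  · rw [hf]
    simp
  · have h1 : (fun (i : Fin c) (k : m × n) => eval (0 : m × n → ℂ) (pderiv k (f i))) =
        fun i => Pi.basisFun ℂ (m × n) (e i) := by
      funext i k
      rw [hf]
      simp only [Pi.basisFun_apply, pderiv_X]
      by_cases h : k = e i
      · subst h
        simp
      · rw [Pi.single_eq_of_ne (Ne.symm h), Pi.single_eq_of_ne h, map_zero]
    rw [h1]
    exact (Pi.basisFun ℂ (m × n)).linearIndependent.comp e e.injective
  · simp
  · rw [hsp, one_mul, pow_one]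
    obtain ⟨q', hq⟩ := minG_one m n rfl j
    rw [hq]
    refine Ideal.subset_span ⟨e.symm q', ?_⟩
    rw [hf]
    simp
  · rw [one_mul]
    have h1 : bind₁ f (gensP (Smooth.PU 1) (Smooth.cU c) l) ∈ Ideal.span (Set.range f) ^ 1 := by
      rw [← hsp]
      exact Ideal.subset_span ⟨l, rfl⟩
    rw [pow_one] at h1
    refine Ideal.span_le.2 ?_ h1
    rintro x ⟨i, rfl⟩
    refine Ideal.subset_span ⟨(fun _ => (e i).1, fun _ => (e i).2), ?_⟩
    rw [minG_one' m n rfl]

end Pool.Agent.D0H17.TS
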