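import Pool.Agent.D0H17.TS.Base1

/-! Project TS, module MAXP: the maximal minors at the partial identity. -/

set_option autoImplicit false
set_option linter.unusedSectionVars false
set_option linter.unusedVariables false

namespace Pool.Agent.D0H17.TS

open MvPolynomial Pool.Agent.W428.MOT Pool.Agent.TH192.MT Pool.Agent.TH192.DT
  Pool.Agent.D0H67.SUB Pool.Agent.D0H67.PM Pool.Agent.D0H67.CX Pool.Agent.D0H67.CX.Qh
open Pool.Agent.D0H67.TS

namespace Maxp

variable {m n : Type} [Fintype m] [Fintype n] {r : ℕ} (a : Fin r → m) (b : Fin r → n)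

open Classical in
/-- the partial identity -/
noncomputable def pid (p : m × n) : ℂ := if ∃ s, p.1 = a s ∧ p.2 = b s then 1 else 0

theorem eval_minG (k : ℕ) (u : m × n → ℂ) (q : (Fin k → m) × (Fin k → n)) :
    eval u (minG m n k q) = (Matrix.of fun i j => u (q.1 i, q.2 j) :
      Matrix (Fin k) (Fin k) ℂ).det := by
  unfold minG
  rw [RingHom.map_det]
  congr 1
  ext i j
  simp

variable {a b}

theorem pid_zero_row {i : m} (hi : i ∉ Set.range a) (j : n) : pid a b (i, j) = 0 := by
  unfold pid
  rw [if_neg]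
  rintro ⟨s, hs, -⟩
  exact hi ⟨s, hs.symm⟩

theorem pid_delta (ha : Function.Injective a) (hb : Function.Injective b) :
    eval (pid a b) (minG m n r (a, b)) = 1 := by
  classical
  rw [eval_minG]
  have h : (Matrix.of fun i j => pid a b (a i, b j) : Matrix (Fin r) (Fin r) ℂ) = 1 := by
    ext i j
    rw [Matrix.of_apply, Matrix.one_apply]
    unfold pid
    by_cases h : i = j
    · subst h
      rw [if_pos ⟨i, rfl, rfl⟩, if_pos rfl]
    · rw [if_neg h, if_neg]
      rintro ⟨s, h1, h2⟩
      exact h ((ha h1).trans (hb h2).symm)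
  rw [h, Matrix.det_one]

theorem pid_brd (q : {i : m // i ∉ Set.range a} × {j : n // j ∉ Set.range b}) :
    eval (pid a b) (brd m n a b q) = 0 := by
  unfold brd
  rw [map_sub, map_mul, eval_X, pid_zero_row q.1.2, mul_zero, map_sum, zero_sub, neg_eq_zero]
  refine Finset.sum_eq_zero fun s _ => ?_
  rw [map_sum]
  refine Finset.sum_eq_zero fun t _ => ?_
  rw [map_mul, map_mul, eval_X, pid_zero_row q.1.2, zero_mul, zero_mul]

theorem pid_minor (hb : Function.Injective b) (q : (Fin (r + 1) → m) × (Fin (r + 1) → n)) :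
    eval (pid a b) (minG m n (r + 1) q) = 0 := by
  classical
  rw [eval_minG]
  have h : (Matrix.of fun i j => pid a b (q.1 i, q.2 j) :
      Matrix (Fin (r + 1)) (Fin (r + 1)) ℂ) =
      (Matrix.of fun i s => if q.1 i = a s then (1 : ℂ) else 0 :
        Matrix (Fin (r + 1)) (Fin r) ℂ) *
      (Matrix.of fun s j => if q.2 j = b s then (1 : ℂ) else 0 :
        Matrix (Fin r) (Fin (r + 1)) ℂ) := by
    ext i j
    rw [Matrix.of_apply, Matrix.mul_apply]
    simp only [Matrix.of_apply]
    unfold pid
    split_ifs with h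
    · obtain ⟨s, h1, h2⟩ := h
      rw [Finset.sum_eq_single s]
      · rw [if_pos h1, if_pos h2, one_mul]
      · intro t _ ht
        rw [if_neg (c := q.2 j = b t), mul_zero]
        intro h3
        exact ht (hb (h3.symm.trans h2))
      · intro h3
        exact absurd (Finset.mem_univ s) h3
    · refine (Finset.sum_eq_zero fun s _ => ?_).symm
      by_cases h1 : q.1 i = a s
      · rw [if_neg (c := q.2 j = b s), mul_zero]
        intro h2
        exact h ⟨s, h1, h2⟩
      · rw [if_neg h1, zero_mul]
  by_contra h0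
  rw [h] at h0
  have h1 := Matrix.rank_of_isUnit _ ((Matrix.isUnit_iff_isUnit_det _).2 (isUnit_iff_ne_zero.2 h0))
  rw [Fintype.card_fin] at h1
  have h2 := (Matrix.rank_mul_le_left (Matrix.of fun i s => if q.1 i = a s then (1 : ℂ) else 0 :
        Matrix (Fin (r + 1)) (Fin r) ℂ)
      (Matrix.of fun s j => if q.2 j = b s then (1 : ℂ) else 0 :
        Matrix (Fin r) (Fin (r + 1)) ℂ)).trans (Matrix.rank_le_width _)
  omega

theorem card_compl {α : Type} [Fintype α] {a : Fin r → α} (ha : Function.Injective a)
    [Fintype {i : α // i ∉ Set.range a}] :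
    Fintype.card {i : α // i ∉ Set.range a} = Fintype.card α - r := by
  classical
  rw [Fintype.card_subtype_compl]
  congr 1
  have h := Set.card_range_of_injective ha
  rw [Fintype.card_fin] at h
  exact h

end Maxp

open Maxp

theorem t_MAXP : S_SYLA → S_SYLB → S_CEN → S_MAXP := by
  intro hA hB hC m n _ _ k hk hm hn
  classical
  obtain ⟨r, rfl⟩ : ∃ r, k = r + 1 := ⟨k - 1, by omega⟩
  have hr : 1 ≤ r := by omega
  have hsub : r + 1 - r = 1 := by omega
  rw [Nat.add_sub_cancel]
  obtain ⟨a, ha⟩ : ∃ a : Fin r → m, Function.Injective a := by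
    obtain ⟨f⟩ := Function.Embedding.nonempty_of_card_le (α := Fin r) (β := m)
      (by rw [Fintype.card_fin]; omega)
    exact ⟨f, f.injective⟩
  obtain ⟨b, hb⟩ : ∃ b : Fin r → n, Function.Injective b := by
    obtain ⟨f⟩ := Function.Embedding.nonempty_of_card_le (α := Fin r) (β := n)
      (by rw [Fintype.card_fin]; omega)
    exact ⟨f, f.injective⟩
  have hd : eval (pid a b) (minG m n r (a, b)) = 1 := pid_delta ha hb
  have hdc : eval (pid a b) (minG m n r (a, b)) ≠ 0 := by
    rw [hd]
    exact one_ne_zero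
  have hcard : Fintype.card ({i : m // i ∉ Set.range a} × {j : n // j ∉ Set.range b}) =
      (Fintype.card m - r) * (Fintype.card n - r) := by
    rw [Fintype.card_prod, card_compl ha, card_compl hb]
  have e : Fin ((Fintype.card m - r) * (Fintype.card n - r)) ≃
      {i : m // i ∉ Set.range a} × {j : n // j ∉ Set.range b} :=
    (Fintype.equivFinOfCardEq hcard).symm
  refine ⟨pid a b, ?_, pid_minor hb, ?_⟩
  · intro h0
    have h1 := congrFun h0 (a ⟨0, hr⟩, b ⟨0, hr⟩)
    unfold pid at h1
    rw [if_pos ⟨⟨0, hr⟩, rfl, rfl⟩] at h1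
    exact one_ne_zero h1
  · obtain ⟨h1, h2, h3⟩ := hC a b (pid a b) hdc pid_brd (r + 1)
    have hF : Ideal.span (Set.range fun i => brd m n a b (e i)) =
        Ideal.span (Set.range (brd m n a b)) := by
      congr 1
      exact e.surjective.range_comp (brd m n a b)
    refine Smooth.mem_pair (minG m n (r + 1)) (pid a b) _ 1 ⟨?_, one_pos,
      fun i => brd m n a b (e i), minG m n r (a, b) ^ (r + 1), fun i => h1 (e i), ?_, h3,
      fun j => ?_, fun x hx => ?_⟩
    · exact Nat.mul_pos (by omega) (by omega)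
    · exact h2.comp e e.injective
    · rw [pow_one, hF]
      refine Ideal.span_le.2 ?_ (hA a b (Nat.le_succ r) j)
      rintro x ⟨l, rfl⟩
      obtain ⟨q', hq⟩ := minG_one {i : m // i ∉ Set.range a} {j : n // j ∉ Set.range b} hsub l
      simp only
      rw [hq, bind₁_X_right]
      exact Ideal.subset_span ⟨q', rfl⟩
    · rw [pow_one, hF] at hx
      rw [← smul_eq_mul]
      refine Submodule.span_induction
        (p := fun x _ => minG m n r (a, b) ^ (r + 1) • x ∈ Ideal.span (Set.range (minG m n (r + 1))))
        ?_ ?_ ?_ ?_ hx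
      · rintro _ ⟨q', rfl⟩
        have h4 := hB a b (Nat.le_succ r) (fun _ => q'.1, fun _ => q'.2)
        rw [minG_one' _ _ hsub, bind₁_X_right] at h4
        exact h4
      · rw [smul_zero]
        exact Submodule.zero_mem _
      · intro x y _ _ hx hy
        rw [smul_add]
        exact Submodule.add_mem _ hx hy
      · intro c x _ hx
        rw [smul_comm]
        exact Submodule.smul_mem _ _ hx

end Pool.Agent.D0H17.TS
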