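import Pool.Agent.D0H67.TS.Stm
import Pool.Agent.D0H29.CX.Orb
import Pool.Agent.TH192.MT.Ser

/-! Project TS, module ORBN: the orbit of a point under `𝔾_m`, with the function `c = r ^ d c₀` and
parameters. -/

set_option autoImplicit false
set_option linter.unusedSectionVars false
set_option linter.unusedVariables false

namespace Pool.Agent.D0H17.TS

open MvPolynomial Pool.Agent.W428.MOT Pool.Agent.TH192.MT Pool.Agent.D0H67.SUB
  Pool.Agent.D0H67.SUB.Lev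
open Pool.Agent.D0H67.CX Pool.Agent.D0H67.TS
open Pool.Agent.D0H29.CX.Orb

namespace Orbn

variable {σ ρ : Type} [Fintype σ] [Fintype ρ] {w : σ → ℕ} {u : Pt ℂ σ} {N a d : ℕ}
  {c₀ : AlgebraicClosure ℂ} {Φ : Set (Pt ℂ (ρ ⊕ Unit))}

/-- the set of `S_ORBN` -/
def ZR (w : σ → ℕ) (u : Pt ℂ σ) (N a d : ℕ) (c₀ : AlgebraicClosure ℂ)
    (Φ : Set (Pt ℂ (ρ ⊕ Unit))) : Set (Pt ℂ (ρ ⊕ (σ × Fin (N + 1)))) :=
  {x : Pt ℂ (ρ ⊕ (σ × Fin (N + 1))) |
      (jk (fun q => x (Sum.inr q)) 0 = fun i => if w i = 0 then u i else 0) ∧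
      (∀ i, w i ≠ 0 → ∀ k < a * w i, jk (fun q => x (Sum.inr q)) k i = 0) ∧
      ∃ r : AlgebraicClosure ℂ, r ≠ 0 ∧
        (∀ i, w i ≠ 0 → jk (fun q => x (Sum.inr q)) (a * w i) i = r ^ w i * u i) ∧
        (Sum.elim (fun s => x (Sum.inl s)) fun _ => r ^ d * c₀ : Pt ℂ (ρ ⊕ Unit)) ∈ Φ}

/-- the leading coefficients -/
noncomputable def ph (w : σ → ℕ) (N a : ℕ) (x : Pt ℂ (ρ ⊕ (σ × Fin (N + 1)))) : Pt ℂ σ :=
  fun i => jk (fun q => x (Sum.inr q)) (a * w i) i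

theorem ph_pf (i : σ) : IsPF fun x : Pt ℂ (ρ ⊕ (σ × Fin (N + 1))) => ph w N a x i :=
  (pf_jk (K := ℂ) (σ := σ) (N := N) (a * w i) i).comp _ fun q => IsPF.coord _

/-- the parameter `r` -/
noncomputable def rr (w b c : σ → ℕ) (u : Pt ℂ σ) (N a : ℕ)
    (x : Pt ℂ (ρ ⊕ (σ × Fin (N + 1)))) : AlgebraicClosure ℂ :=
  num w b c u (ph w N a x) / num w c b u (ph w N a x)

theorem rr_eq {b c : σ → ℕ} (hbc : ∑ i, b i * w i = ∑ i, c i * w i + 1)
    (hu : ∀ i, w i ≠ 0 → u i ≠ 0) {r : AlgebraicClosure ℂ} (hr : r ≠ 0)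
    {x : Pt ℂ (ρ ⊕ (σ × Fin (N + 1)))} (hx : ∀ i, w i ≠ 0 → ph w N a x i = r ^ w i * u i) :
    rr w b c u N a x = r := by
  obtain ⟨h4, h5⟩ := key hbc hu hr (x := ph w N a x) hx
  unfold rr
  rw [h5, mul_div_cancel_right₀ _ h4]

theorem rr_rf {b c : σ → ℕ} {S : Set (Pt ℂ (ρ ⊕ (σ × Fin (N + 1))))}
    (hbc : ∑ i, b i * w i = ∑ i, c i * w i + 1)
    (hu : ∀ i, w i ≠ 0 → u i ≠ 0)
    (hS : ∀ x ∈ S, ∃ r : AlgebraicClosure ℂ, r ≠ 0 ∧
      ∀ i, w i ≠ 0 → ph w N a x i = r ^ w i * u i) :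
    IsRF S fun x => rr w b c u N a x := by
  unfold rr
  refine ((pf_num _ ph_pf).isRF _).div ((pf_num _ ph_pf).isRF _) fun x hx => ?_
  obtain ⟨r, hr, h⟩ := hS x hx
  exact (key hbc hu hr h).1

theorem main (hw : ∀ k : ℕ, (∀ i, k ∣ w i) → k = 1) (hu : ∀ i, w i ≠ 0 → u i ≠ 0) (ha0 : 0 < a)
    (hd : 0 < d) (ha : ∀ i, a * w i ≤ N) (hc₀ : c₀ ≠ 0) (hΦ : Constr Φ) :
    Constr (ZR w u N a d c₀ Φ) ∧ ∀ {R : Type} [CommRing R] (M : Meas ℂ R),
      M.χ _ (ZR w u N a d c₀ Φ) = M.χ (ρ ⊕ Unit) (RS d Φ) * M.L ^ (∑ i, (N - a * w i)) := by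
  classical
  obtain ⟨b, c, hbc⟩ := bezout w hw
  -- the set of all the jets
  have hS : Constr {x : Pt ℂ (ρ ⊕ (σ × Fin (N + 1))) |
      (fun q => x (Sum.inr q)) ∈ ZO w u N a} :=
    (constr_ZO (N := N) (a := a) hbc hu).preimage _ fun i => IsPF.coord _
  have hS2 : ∀ x ∈ {x : Pt ℂ (ρ ⊕ (σ × Fin (N + 1))) |
      (fun q => x (Sum.inr q)) ∈ ZO w u N a}, ∃ r : AlgebraicClosure ℂ, r ≠ 0 ∧
      ∀ i, w i ≠ 0 → ph w N a x i = r ^ w i * u i := fun x hx => hx.2.2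
  have hZ : Constr (ZR w u N a d c₀ Φ) := by
    have h1 := constr_pre hS (φ := fun x : Pt ℂ (ρ ⊕ (σ × Fin (N + 1))) =>
      (Sum.elim (fun s => x (Sum.inl s)) fun _ => rr w b c u N a x ^ d * c₀ :
        Pt ℂ (ρ ⊕ Unit))) (by
        rintro (s | s)
        · exact (IsPF.coord (Sum.inl s)).isRF _
        · exact (rf_pow (rr_rf hbc hu hS2) d).mul ((Base.pf_const c₀).isRF _)) hΦ
    refine (congrArg Constr ?_).mpr h1
    ext x
    constructor
    · rintro ⟨h2, h3, r, hr, h4, h5⟩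
      refine ⟨⟨h2, h3, r, hr, h4⟩, ?_⟩
      change (Sum.elim (fun s => x (Sum.inl s)) fun _ => rr w b c u N a x ^ d * c₀ :
        Pt ℂ (ρ ⊕ Unit)) ∈ Φ
      rw [rr_eq hbc hu hr (x := x) h4]
      exact h5
    · rintro ⟨⟨h2, h3, r, hr, h4⟩, h5⟩
      refine ⟨h2, h3, r, hr, h4, ?_⟩
      change (Sum.elim (fun s => x (Sum.inl s)) fun _ => rr w b c u N a x ^ d * c₀ :
        Pt ℂ (ρ ⊕ Unit)) ∈ Φ at h5
      rw [rr_eq hbc hu hr (x := x) h4] at h5
      exact h5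
  refine ⟨hZ, fun {R} _ M => ?_⟩
  obtain ⟨κ, hκ⟩ := IsAlgClosed.exists_pow_nat_eq c₀ hd
  have hκ0 : κ ≠ 0 := by
    rintro rfl
    exact hc₀ (by rw [← hκ, zero_pow hd.ne'])
  have hRS : Constr (RS d Φ) := by
    refine Constr.and (Constr.ne (IsPF.coord _) IsPF.zero) ?_
    refine hΦ.preimage (fun x : Pt ℂ (ρ ⊕ Unit) => (Sum.elim (fun r => x (Sum.inl r))
      fun _ => x (Sum.inr ()) ^ d : Pt ℂ (ρ ⊕ Unit))) ?_
    rintro (s | s)
    · exact IsPF.coord _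
    · exact (IsPF.coord _).pow _
  have h1 := M.prod (RS d Φ) (Set.univ : Set (Pt ℂ (FC w N a))) hRS Constr.univ
  rw [chi_univ, card_FC ha] at h1
  rw [← h1]
  have hT : Constr {z : Pt ℂ ((ρ ⊕ Unit) ⊕ FC w N a) | (fun i => z (Sum.inl i)) ∈ RS d Φ ∧
      (fun i => z (Sum.inr i)) ∈ (Set.univ : Set (Pt ℂ (FC w N a)))} := by
    refine Constr.and ?_ (Constr.const True)
    exact hRS.preimage (fun z : Pt ℂ ((ρ ⊕ Unit) ⊕ FC w N a) => fun i => z (Sum.inl i))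
      fun i => IsPF.coord _
  have hS3 : ∀ x ∈ ZR w u N a d c₀ Φ, ∃ r : AlgebraicClosure ℂ, r ≠ 0 ∧
      ∀ i, w i ≠ 0 → ph w N a x i = r ^ w i * u i := by
    rintro x ⟨-, -, r, hr, h4, -⟩
    exact ⟨r, hr, h4⟩
  refine M.iso _ _ hZ hT
    (fun x => Sum.elim (Sum.elim (fun s => x (Sum.inl s)) fun _ => κ * rr w b c u N a x)
      fun p => x (Sum.inr p.1))
    (fun y => Sum.elim (fun s => y (Sum.inl (Sum.inl s)))
      (back w u N a (Sum.elim (fun _ => κ⁻¹ * y (Sum.inl (Sum.inr ()))) fun p => y (Sum.inr p))))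
    ?_ ?_ ?_ ?_ ?_ ?_
  · rintro ((s | s) | p)
    · exact (IsPF.coord (Sum.inl s)).isRF _
    · exact ((Base.pf_const κ).isRF _).mul (rr_rf hbc hu hS3)
    · exact (IsPF.coord (Sum.inr p.1)).isRF _
  · refine regularOn_poly (fun q => ?_) _
    rcases q with s | p
    · exact IsPF.coord _
    · simp only [Sum.elim_inr]
      unfold back
      by_cases h : a * w p.1 < p.2
      · simp only [dif_pos h, Sum.elim_inr]
        exact IsPF.coord _
      · simp only [dif_neg h, Sum.elim_inl]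
        split_ifs
        · exact (((Base.pf_const _).mul (IsPF.coord _)).pow _).mul (Base.pf_const _)
        · exact IsPF.zero
  · rintro x ⟨-, -, r, hr, h4, h5⟩
    have h6 := rr_eq hbc hu hr (x := x) h4
    refine ⟨⟨?_, ?_⟩, trivial⟩
    · change κ * rr w b c u N a x ≠ 0
      rw [h6]
      exact mul_ne_zero hκ0 hr
    · change (Sum.elim (fun s => x (Sum.inl s)) fun _ => (κ * rr w b c u N a x) ^ d :
        Pt ℂ (ρ ⊕ Unit)) ∈ Φ
      rw [h6, mul_pow, hκ, mul_comm c₀]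
      exact h5
  · intro y hy
    have hy0 : y (Sum.inl (Sum.inr ())) ≠ 0 := hy.1.1
    have hy1 : (Sum.elim (fun r => y (Sum.inl (Sum.inl r)))
      fun _ => y (Sum.inl (Sum.inr ())) ^ d : Pt ℂ (ρ ⊕ Unit)) ∈ Φ := hy.1.2
    refine ⟨?_, fun i hi k hk => ?_, κ⁻¹ * y (Sum.inl (Sum.inr ())),
      mul_ne_zero (inv_ne_zero hκ0) hy0, fun i hi => ?_, ?_⟩
    · funext i
      change jk (back w u N a _) 0 i = _
      rw [jk_back _ i (Nat.zero_le _) (ha i)]
      by_cases h : w i = 0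
      · rw [if_pos (by rw [h, mul_zero]), if_pos h, h, pow_zero, one_mul]
      · rw [if_neg h, if_neg]
        have := Nat.mul_pos ha0 (Nat.pos_of_ne_zero h)
        omega
    · change jk (back w u N a _) k i = _
      rw [jk_back _ i hk.le (ha i), if_neg hk.ne]
    · change jk (back w u N a _) (a * w i) i = _
      rw [jk_back _ i le_rfl (ha i), if_pos rfl]
      rfl
    · have h6 : (κ⁻¹ * y (Sum.inl (Sum.inr ()))) ^ d * c₀ = y (Sum.inl (Sum.inr ())) ^ d := by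
        rw [← hκ, mul_pow, inv_pow, mul_comm, ← mul_assoc,
          mul_inv_cancel₀ (pow_ne_zero _ hκ0), one_mul]
      rw [h6]
      exact hy1
  · rintro x ⟨h1, h2, r, hr, h3, -⟩
    have h6 := rr_eq hbc hu hr (x := x) h3
    funext q
    rcases q with s | p
    · rfl
    · obtain ⟨i, k⟩ := p
      simp only [Sum.elim_inr]
      unfold back
      by_cases h : a * w i < (k : ℕ)
      · simp only [dif_pos h, Sum.elim_inr]
      · simp only [dif_neg h, Sum.elim_inl, Sum.elim_inr]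
        have h7 : jk (fun q => x (Sum.inr q)) k i = x (Sum.inr (i, k)) :=
          jk_lt (fun q => x (Sum.inr q)) k.2 i
        rw [← h7, h6, ← mul_assoc, inv_mul_cancel₀ hκ0, one_mul]
        split_ifs with h8
        · by_cases h9 : w i = 0
          · rw [h9, pow_zero, one_mul, h8, h9, mul_zero, h1]
            simp only [if_pos h9]
          · rw [h8, h3 i h9]
        · by_cases h9 : w i = 0
          · rw [h9, mul_zero] at h h8
            omega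
          · rw [h2 i h9 k (by omega)]
  · intro y hy
    have hy0 : y (Sum.inl (Sum.inr ())) ≠ 0 := hy.1.1
    have h3 : ∀ i, w i ≠ 0 → ph w N a (Sum.elim (fun s => y (Sum.inl (Sum.inl s)))
        (back w u N a (Sum.elim (fun _ => κ⁻¹ * y (Sum.inl (Sum.inr ())))
          fun p => y (Sum.inr p))) : Pt ℂ (ρ ⊕ (σ × Fin (N + 1)))) i =
        (κ⁻¹ * y (Sum.inl (Sum.inr ()))) ^ w i * u i := by
      intro i hi
      change jk (back w u N a _) (a * w i) i = _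
      rw [jk_back _ i le_rfl (ha i), if_pos rfl]
      rfl
    have h6 := rr_eq hbc hu (mul_ne_zero (inv_ne_zero hκ0) hy0) h3
    funext q
    rcases q with (s | s) | p
    · rfl
    · simp only [Sum.elim_inl, Sum.elim_inr]
      rw [h6, ← mul_assoc, mul_inv_cancel₀ hκ0, one_mul]
    · simp only [Sum.elim_inr]
      unfold back
      rw [dif_pos p.2]
      rfl

end Orbn

theorem t_ORBN : S_ORBN := by
  intro σ _ w hw u hu N a d ha0 hd ha c₀ hc₀ ρ _ Φ hΦ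
  exact Orbn.main hw hu ha0 hd ha hc₀ hΦ

end Pool.Agent.D0H17.TS
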