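import Pool.Agent.D0H67.TS.Stm
import Pool.Agent.D0H87.CX.Rec

/-! Project TS, module WREL: the series of the jets of order `≥ N`. -/

set_option autoImplicit false
set_option linter.unusedSectionVars false
set_option linter.unusedVariables false

namespace Pool.Agent.D0H17.TS

open MvPolynomial Pool.Agent.W428.MOT Pool.Agent.TH192.MT Pool.Agent.D0H67.SUB
  Pool.Agent.D0H67.SUB.Lev Pool.Agent.D0H67.SUB.Shift
open Pool.Agent.D0H67.CX Pool.Agent.D0H67.TS
open Pool.Agent.D0H87.CX.Rec

variable {K : Type} [Field K] {σ J : Type}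

/-- the `N`-jets on which the ideal has the order at least `m` -/
def JW (g : J → MvPolynomial σ K) (V : Set (Pt K σ)) (m N : ℕ) :
    Set (Pt K (σ × Fin (N + 1))) :=
  {z | (fun i => z (i, 0)) ∈ V ∧
    ∀ j, ∀ k < m, PowerSeries.coeff k (aeval (ar z) (g j)) = 0}

theorem constr_JW [Finite J] (g : J → MvPolynomial σ K) {V : Set (Pt K σ)} (hV : Constr V)
    (m N : ℕ) : Constr (JW g V m N) := by
  refine Constr.and ?_ ?_
  · exact hV.preimage _ fun i => IsPF.coord _
  · exact Constr.all fun j => Constr.allLt m fun k _ => Constr.eqz (pf_coeff _ _)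

theorem JW_split (g : J → MvPolynomial σ K) (V : Set (Pt K σ)) (N : ℕ) :
    JW g V N N = OS g V N N ∪ JW g V (N + 1) N := by
  ext z
  constructor
  · rintro ⟨h1, h2⟩
    by_cases h : ∃ j, PowerSeries.coeff N (aeval (ar z) (g j)) ≠ 0
    · exact Or.inl ⟨h1, h2, h⟩
    · push Not at h
      refine Or.inr ⟨h1, fun j k hk => ?_⟩
      rcases Nat.lt_succ_iff_lt_or_eq.mp hk with hk | hk
      · exact h2 j k hk
      · rw [hk]
        exact h j
  · rintro (⟨h1, h2, -⟩ | ⟨h1, h2⟩)
    · exact ⟨h1, h2⟩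
    · exact ⟨h1, fun j k hk => h2 j k (by omega)⟩

theorem JW_disj (g : J → MvPolynomial σ K) (V : Set (Pt K σ)) (N : ℕ) :
    Disjoint (OS g V N N) (JW g V (N + 1) N) := by
  rw [Set.disjoint_left]
  rintro z ⟨-, -, j, hj⟩ ⟨-, h⟩
  exact hj (h j N (Nat.lt_succ_self N))

variable [Fintype σ]

theorem JW_level [Finite J] (g : J → MvPolynomial σ K) {V : Set (Pt K σ)} (hV : Constr V)
    {R : Type} [CommRing R] (M : Meas K R) (m l : ℕ) :
    M.χ _ (JW g V (m + 1) (m + l)) = M.χ _ (JW g V (m + 1) m) * M.L ^ (Fintype.card σ * l) := by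
  have h := chi_split M (eq (σ := σ) (m := m) (l := l)) (JW g V (m + 1) (m + l))
    (JW g V (m + 1) m) (constr_JW g hV (m + 1) m) ?_
  · rw [h, Fintype.card_prod, Fintype.card_fin]
  · intro z
    have h1 : ∀ j, ∀ k ≤ m, PowerSeries.coeff k (aeval (ar z) (g j)) = PowerSeries.coeff k
        (aeval (ar fun i => z (eq (Sum.inl i))) (g j)) := by
      intro j
      refine coeff_congr m _ _ (fun i k hk => ?_) (g j)
      rw [coeff_ar, coeff_ar, dif_pos (by omega), dif_pos (by omega)]
      congr 1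
    unfold JW
    simp only [Set.mem_ofPred_eq]
    refine and_congr ?_ ?_
    · have h2 : (fun i : σ => z (i, 0)) = fun i => z (eq (m := m) (l := l) (Sum.inl (i, 0))) := by
        funext i
        congr 1
      rw [h2]
    · exact forall_congr' fun j => forall₂_congr fun k hk => by rw [h1 j k (by omega)]

theorem JW_zero [Finite J] (g : J → MvPolynomial σ K) {V : Set (Pt K σ)} (hV : Constr V)
    {R : Type} [CommRing R] (M : Meas K R) : M.χ _ (JW g V 0 0) = M.χ σ V := by
  refine M.iso _ _ (constr_JW g hV 0 0) hV (fun z i => z (i, 0)) (fun x p => x p.1)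
    (regularOn_poly (fun i => IsPF.coord _) _) (regularOn_poly (fun i => IsPF.coord _) _)
    ?_ ?_ ?_ ?_
  · intro z hz
    exact hz.1
  · intro x hx
    exact ⟨hx, fun j k hk => absurd hk (Nat.not_lt_zero _)⟩
  · intro z _
    funext ⟨i, k⟩
    change z (i, 0) = z (i, k)
    rw [show k = 0 from Fin.ext (by omega)]
  · intro x _
    rfl

theorem tl_mul {R : Type} [CommRing R] (c : R) (F : PowerSeries R) :
    tl c F * (1 - PowerSeries.X) = PowerSeries.C c - PowerSeries.X * F := by
  unfold tl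
  have h : (PowerSeries.mk fun _ => (1 : R)) * (1 - PowerSeries.X) = 1 :=
    PowerSeries.mk_one_mul_one_sub_eq_one R
  rw [mul_assoc, h, mul_one]

theorem coeff_tl_zero {R : Type} [CommRing R] (c : R) (F : PowerSeries R) :
    PowerSeries.coeff 0 (tl c F) = c := by
  have h := congrArg (PowerSeries.coeff 0) (tl_mul c F)
  rw [mul_sub, mul_one, map_sub, map_sub, PowerSeries.coeff_zero_mul_X,
    PowerSeries.coeff_zero_X_mul, sub_zero, sub_zero, PowerSeries.coeff_zero_C] at h
  exact h

theorem coeff_tl_succ {R : Type} [CommRing R] (c : R) (F : PowerSeries R) (N : ℕ) :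
    PowerSeries.coeff (N + 1) (tl c F) = PowerSeries.coeff N (tl c F) - PowerSeries.coeff N F := by
  have h := congrArg (PowerSeries.coeff (N + 1)) (tl_mul c F)
  rw [mul_sub, mul_one, map_sub, map_sub, PowerSeries.coeff_succ_mul_X,
    PowerSeries.coeff_succ_X_mul, PowerSeries.coeff_C, if_neg (Nat.succ_ne_zero N)] at h
  linear_combination h

theorem t_WREL : S_WREL := by
  intro K _ σ J _ _ g R _ M v hv V hV
  have hJ : ∀ N, JetF g V N = OS g V N N := fun N => rfl
  have hW : ∀ N, JetW g V N = JW g V N N := fun N => rfl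
  intro N
  rw [hW]
  refine ⟨constr_JW g hV N N, ?_⟩
  unfold WF
  induction N with
  | zero =>
    rw [coeff_tl_zero, JW_zero g hV M, mul_zero, pow_zero, mul_one]
  | succ N ih =>
    rw [coeff_tl_succ, ih]
    have h1 : M.χ _ (JW g V N N) = M.χ _ (OS g V N N) + M.χ _ (JW g V (N + 1) N) := by
      rw [JW_split, M.add _ _ (constr_OS g hV N N) (constr_JW g hV (N + 1) N) (JW_disj g V N)]
    have h2 := JW_level g hV M N 1
    rw [h1, h2]
    unfold ZF
    rw [PowerSeries.coeff_mk, hJ]
    have h3 : M.L ^ (Fintype.card σ * 1) * v ^ (Fintype.card σ * (N + 1)) =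
        v ^ (Fintype.card σ * N) := by
      rw [mul_add, mul_one, pow_add, mul_left_comm, ← mul_pow, hv, one_pow, mul_one]
    rw [mul_assoc, h3]
    ring

end Pool.Agent.D0H17.TS
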