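import Pool.Agent.D0H17.TS.Wrel

/-! Project TS, module WSUM: `ord (I + J) = min (ord I, ord J)`. -/

set_option autoImplicit false
set_option linter.unusedSectionVars false
set_option linter.unusedVariables false

namespace Pool.Agent.D0H17.TS

open MvPolynomial Pool.Agent.W428.MOT Pool.Agent.TH192.MT Pool.Agent.D0H67.SUB
  Pool.Agent.D0H67.SUB.Lev Pool.Agent.D0H67.SUB.Shift
open Pool.Agent.D0H67.CX Pool.Agent.D0H67.TS
open Pool.Agent.D0H87.CX.Rec

/-- the jet of the first variables -/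
def zl {F σ τ : Type} {N : ℕ} (z : (σ ⊕ τ) × Fin (N + 1) → F) : σ × Fin (N + 1) → F :=
  fun q => z (Sum.inl q.1, q.2)

/-- the jet of the second variables -/
def zr {F σ τ : Type} {N : ℕ} (z : (σ ⊕ τ) × Fin (N + 1) → F) : τ × Fin (N + 1) → F :=
  fun q => z (Sum.inr q.1, q.2)

theorem aeval_inl {K : Type} [Field K] {σ τ : Type} {N : ℕ} (z : Pt K ((σ ⊕ τ) × Fin (N + 1)))
    (f : MvPolynomial σ K) :
    aeval (ar z) (rename (Sum.inl : σ → σ ⊕ τ) f) = aeval (ar (zl z)) f := by
  rw [aeval_rename]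
  rfl

theorem aeval_inr {K : Type} [Field K] {σ τ : Type} {N : ℕ} (z : Pt K ((σ ⊕ τ) × Fin (N + 1)))
    (f : MvPolynomial τ K) :
    aeval (ar z) (rename (Sum.inr : τ → σ ⊕ τ) f) = aeval (ar (zr z)) f := by
  rw [aeval_rename]
  rfl

theorem mem_sum {K : Type} [Field K] {σ τ J J' : Type} (g : J → MvPolynomial σ K)
    (g' : J' → MvPolynomial τ K) (N : ℕ) (z : Pt K ((σ ⊕ τ) × Fin (N + 1))) :
    z ∈ JetW (sumG g g') {0} N ↔ zl z ∈ JetW g {0} N ∧ zr z ∈ JetW g' {0} N := by
  constructor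
  · rintro ⟨h1, h2⟩
    refine ⟨⟨?_, fun j k hk => ?_⟩, ⟨?_, fun j k hk => ?_⟩⟩
    · funext i
      exact congrFun h1 (Sum.inl i)
    · have := h2 (Sum.inl j) k hk
      unfold sumG at this
      rw [Sum.elim_inl, aeval_inl] at this
      exact this
    · funext i
      exact congrFun h1 (Sum.inr i)
    · have := h2 (Sum.inr j) k hk
      unfold sumG at this
      rw [Sum.elim_inr, aeval_inr] at this
      exact this
  · rintro ⟨⟨h1, h2⟩, ⟨h3, h4⟩⟩
    refine ⟨?_, fun j k hk => ?_⟩
    · funext i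
      rcases i with i | i
      · exact congrFun h1 i
      · exact congrFun h3 i
    · rcases j with j | j
      · unfold sumG
        rw [Sum.elim_inl, aeval_inl]
        exact h2 j k hk
      · unfold sumG
        rw [Sum.elim_inr, aeval_inr]
        exact h4 j k hk

theorem t_WSUM : S_WREL → S_WSUM := by
  intro hW K _ σ τ J J' _ _ _ _ g g' R _ M v hv
  ext N
  have hz1 : Constr ({0} : Set (Pt K σ)) := constr_z
  have hz2 : Constr ({0} : Set (Pt K τ)) := constr_z
  have hz3 : Constr ({0} : Set (Pt K (σ ⊕ τ))) := constr_z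
  obtain ⟨c1, e1⟩ := hW g M v hv {0} hz1 N
  obtain ⟨c2, e2⟩ := hW g' M v hv {0} hz2 N
  obtain ⟨c3, e3⟩ := hW (sumG g g') M v hv {0} hz3 N
  rw [e3, PowerSeries.coeff_mk, e1, e2]
  have h1 : M.χ ((σ ⊕ τ) × Fin (N + 1)) (JetW (sumG g g') {0} N) =
      M.χ (σ × Fin (N + 1)) (JetW g {0} N) * M.χ (τ × Fin (N + 1)) (JetW g' {0} N) := by
    rw [← M.prod _ _ c1 c2]
    refine M.iso _ _ c3 ?_ (fun z => Sum.elim (zl z) (zr z))
      (fun x p => Sum.elim (fun i => x (Sum.inl (i, p.2))) (fun i => x (Sum.inr (i, p.2))) p.1)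
      (regularOn_poly (fun i => ?_) _) (regularOn_poly (fun i => ?_) _) ?_ ?_ ?_ ?_
    · refine Constr.and ?_ ?_
      · exact c1.preimage _ fun i => IsPF.coord _
      · exact c2.preimage _ fun i => IsPF.coord _
    · rcases i with i | i
      · exact IsPF.coord _
      · exact IsPF.coord _
    · obtain ⟨i, k⟩ := i
      rcases i with i | i
      · exact IsPF.coord _
      · exact IsPF.coord _
    · intro z hz
      exact (mem_sum g g' N z).mp hz
    · intro x hx
      rw [mem_sum]
      exact hx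
    · intro z hz
      funext ⟨i, k⟩
      rcases i with i | i
      · rfl
      · rfl
    · intro x hx
      funext i
      rcases i with i | i
      · rfl
      · rfl
  rw [h1, Fintype.card_sum, add_mul, pow_add]
  ring

end Pool.Agent.D0H17.TS
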